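import Pool.Agent.MP_ed9623_an.H77.SpecX

/-! Integration by parts in the radial direction. -/

open MeasureTheory Filter Topology Set
open scoped ContDiff

namespace Pool.Agent.MP_ed9623_an.H77

open H64

namespace Rad

theorem test_q (c : P) {β : ℝ → ℝ} (hβ : ContDiff ℝ ∞ β) (hs : HasCompactSupport β) :
    Test univ fun x => β (qc c x) := by
  obtain ⟨R, hR⟩ := hs.isCompact.isBounded.subset_closedBall 0
  refine ⟨hβ.comp (sm_qc c), HasCompactSupport.intro (isCompact_disc c (|R| + 1)) fun x hx => ?_,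
    subset_univ _⟩
  refine image_eq_zero_of_notMem_tsupport fun h => hx ?_
  have := hR h
  rw [mem_closedBall_zero_iff, Real.norm_eq_abs] at this
  have a := le_abs_self (qc c x)
  have b := le_abs_self R
  have d := abs_nonneg R
  change qc c x ≤ (|R| + 1) ^ 2
  nlinarith

theorem pd_bq (c : P) {β : ℝ → ℝ} (hβ : ContDiff ℝ ∞ β) (l : Fin 2) (x : P) :
    pd (ee l) (fun x => β (qc c x)) x = deriv β (qc c x) * (2 * Xc c l x) := by
  have a := ((hβ.differentiable (by simp) (qc c x)).hasDerivAt).comp_hasFDerivAt x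
    (sm_diff (sm_qc c) x).hasFDerivAt
  rw [← pd_qc]
  have e : fderiv ℝ (fun x => β (qc c x)) x = _ := a.fderiv
  simp [pd, e]

end Rad

open Rad in
theorem rowRad : OfRad := by
  intro hP c w dw β hw hβ hs
  have tb := test_q c hβ hs
  refine ⟨tb, ?_⟩
  have tx : ∀ i, Test univ fun x => β (qc c x) * Xc c i x := fun i => tb.muls (sm_Xc c i)
  have m : ∀ j, M2 (w j) := fun j => (hw j).m
  have md : ∀ j i, M2 (dw j i) := fun j => (hw j).md
  have k : ∀ j i, ∫ x, w j x * w j x * pd (ee i) (fun x => β (qc c x) * Xc c i x) x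
      = -(2 * ∫ x, w j x * dw j i x * (β (qc c x) * Xc c i x)) := fun j i => by
    have wd := ((H1O.zero_iff.1 (hw j)).2 i).2
    rw [hP.1 univ _ _ _ _ _ isOpen_univ (m j) (md j i) (m j) (md j i) wd wd _ (tx i),
      ← integral_const_mul]
    congr 1
    exact integral_congr_ae (Eventually.of_forall fun x => by ring)
  have i1 := fun j i => int_mul3 (m j) (md j i) (tx i)
  have i2 := fun j i => int_mul3 (m j) (m j) ((tx i).pd (ee i))
  have e1 : ∫ x, β (qc c x) * Ph c w dw x
      = ∑ j, ∑ i, ∫ x, w j x * dw j i x * (β (qc c x) * Xc c i x) := by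
    rw [Finset.sum_congr rfl fun j _ => (integral_finsetSum _ fun i _ => i1 j i).symm,
      ← integral_finsetSum _ fun j _ => integrable_finsetSum _ fun i _ => i1 j i]
    exact integral_congr_ae (Eventually.of_forall fun x => by
      simp only [Ph, Fin.sum_univ_two]; ring)
  have e2 : 2 * ∫ x, (β (qc c x) + qc c x * deriv β (qc c x)) * mm w x
      = ∑ j, ∑ i, ∫ x, w j x * w j x * pd (ee i) (fun x => β (qc c x) * Xc c i x) x := by
    rw [Finset.sum_congr rfl fun j _ => (integral_finsetSum _ fun i _ => i2 j i).symm,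
      ← integral_finsetSum _ fun j _ => integrable_finsetSum _ fun i _ => i2 j i,
      ← integral_const_mul]
    refine integral_congr_ae (Eventually.of_forall fun x => ?_)
    have q := qc_eq c x
    simp only [pd_mul _ (sm_diff tb.1 x) (sm_diff (sm_Xc c _) x), pd_bq c hβ, pd_Xc, if_true, mm,
      Fin.sum_univ_two] at q ⊢
    linear_combination (2 * deriv β (qc c x) * (w 0 x ^ 2 + w 1 x ^ 2)) * q
  simp only [k, Fin.sum_univ_two] at e1 e2
  linarith

end Pool.Agent.MP_ed9623_an.H77
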