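import Pool.Agent.MP_ed9623_an.H77.SpecX

/-! The half difference is small near the boundary. -/

open MeasureTheory Filter Topology Set
open scoped ContDiff

namespace Pool.Agent.MP_ed9623_an.H77

open H64

namespace Small

theorem lin (hM : MixS) (hZ : ZtS) {r M : ℝ} {f g : P → ℝ} (hr : 0 < r) (hf : M2 f) (hg : M2 g)
    (hw : WD (Q r) (ee 1) f g) (hv : Van (Q r \ Qp 0 r) f) (ht : TY (Q r) g M) :
    ∃ K : ℝ, 0 ≤ K ∧ ∀ᵐ p : P, p ∈ Q r → f p ^ 2 ≤ K * |p.2| := by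
  obtain ⟨-, z2, -, -, -, z6, -⟩ := hZ r f g hr hf hg
  obtain ⟨C, hC, m1, -⟩ := hM (-r) r 0 r
  obtain ⟨gY, a, -, c⟩ := ht
  have hs : Bx (-r) r 0 r ⊆ Q r := Qp_zero hr.le ▸ Qp_sub 0 r
  have h1 := (Measure.quasiMeasurePreserving_fst (μ := (volume : Measure ℝ))
    (ν := (volume : Measure ℝ))).ae (m1 g gY hg a (c.mono hs))
  have h0 : 0 ≤ C * (nm g ^ 2 + nm gY ^ 2) := by positivity
  refine ⟨C * (nm g ^ 2 + nm gY ^ 2), h0, ?_⟩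
  filter_upwards [h1, z6 _ (z2 hw hv), hv] with p b1 b2 b3 hp
  by_cases h : p ∈ Qp 0 r
  · have e1 := b2 h
    have e2 := b1 hp.1
    have e3 : 0 < p.2 := h.2
    rw [sub_zero] at e1
    rw [abs_of_pos e3, mul_comm]
    exact e1.trans (mul_le_mul_of_nonneg_left e2 e3.le)
  · rw [b3 ⟨hp, h⟩]
    have := mul_nonneg h0 (abs_nonneg p.2)
    simpa using this

theorem mm_tv {x τ : P} {γ : ℝ → ℝ} (hτ : τ.1 ^ 2 + τ.2 ^ 2 = 1) (w : Fin 2 → P → ℝ) (p : P) :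
    mm w (Th x τ γ p) = tv x τ γ w 0 p ^ 2 + tv x τ γ w 1 p ^ 2 := by
  simp [mm, tv, Rm, Fin.sum_univ_two]
  linear_combination (-(w 0 (Th x τ γ p) ^ 2 + w 1 (Th x τ γ p) ^ 2)) * hτ

end Small

open Small in
theorem rowSmall : OfSmall := by
  intro hM hZ hTh hTr hG Ω x τ γ r R a da w dw z dz hc hF δ hδ
  obtain ⟨M, -, hG⟩ := hG Ω x τ γ 0 r R hc
  obtain ⟨f1, p1⟩ := hF.p1
  obtain ⟨f2, p2⟩ := hF.p2
  obtain ⟨t1, t2, -⟩ := hTr x τ γ hc.un hc.gam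
  have hr : 0 < r / 2 := half_pos hc.r0
  have v := (t2 w dw hF.fl.vw).1
  have v1 := (t2 _ _ p1.vf).1
  have v2 := (t2 _ _ p2.vf).1
  have key : ∀ j, ∃ K : ℝ, 0 ≤ K ∧ ∀ᵐ p : P, p ∈ Q (r / 2) → tv x τ γ w j p ^ 2 ≤ K * |p.2| := by
    intro j
    have ty := ((((hG _ _ _ p1).2 j 1).cmul (1 / 2)).add (((hG _ _ _ p2).2 j 1).cmul (-(1 / 2)))
      (((v1.h1 j).md 1).cmul _) (((v2.h1 j).md 1).cmul _)).congr (f' := td x τ γ dw j 1)
      (Eventually.of_forall fun p _ => by simp only [td, Fin.sum_univ_two]; ring)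
    refine lin hM hZ hr (v.h1 j).m ((v.h1 j).md 1) ((v.h1 j).wd1.mono (subset_univ _))
      ((((t1 w).2 Ωᶜ).1 hF.fl.nw j).mono fun p hp h => hp.2 ⟨hp.1, ?_⟩) ty
    exact (hc.mem p (Q_mono (half_le_self hc.r0.le) hp.1)).1 h
  obtain ⟨K0, k0, h0⟩ := key 0
  obtain ⟨K1, k1, h1⟩ := key 1
  have hη : 0 < min (r / 2) (δ / (K0 + K1 + 1)) := lt_min hr (by positivity)
  obtain ⟨η, η0, hb⟩ := Metric.mem_nhds_iff.1 (hc.nhds hη).2
  refine ⟨η, η0, ?_⟩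
  have q := (hTh x τ γ hc.un hc.gam).2.1.quasiMeasurePreserving
  filter_upwards [q.ae h0, q.ae h1] with y a0 a1 hy
  have hy' := hb hy
  have c0 := a0 (Q_mono (min_le_left _ _) hy')
  have c1 := a1 (Q_mono (min_le_left _ _) hy')
  have c2 : |(Thi x τ γ y).2| ≤ δ / (K0 + K1 + 1) := ((mem_Q.1 hy').2.le).trans (min_le_right _ _)
  rw [le_div_iff₀ (by positivity)] at c2
  rw [← Th_Thi (x := x) (γ := γ) hc.un y, mm_tv hc.un]
  nlinarith [abs_nonneg (Thi x τ γ y).2]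

end Pool.Agent.MP_ed9623_an.H77
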