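import Pool.Agent.MP_ed9623_an.H77.SpecW

/-! Tangential regularity for the scalar equation. -/

open MeasureTheory Filter Topology Set
open scoped ContDiff

namespace Pool.Agent.MP_ed9623_an.H77

open H64

namespace Reg0

variable {γ : ℝ → ℝ} {σ r : ℝ}

theorem cutQ {r r' : ℝ} (h : r' < r) :
    ∃ χ, Test (Q r) χ ∧ (∀ x, |χ x| ≤ 1) ∧ ∀ p ∈ Q r', χ p = 1 := by
  obtain ⟨χ, a, b, c⟩ := exists_cut (isCompact_closedBall (0 : P) r') (isOpen_Q r)
    (by rw [Q_eq_ball]; exact Metric.closedBall_subset_ball h)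
  refine ⟨χ, a, fun x => abs_le.2 ⟨by linarith [(b x).1], (b x).2⟩, fun p hp => ?_⟩
  rw [Q_eq_ball] at hp
  exact c.self_of_nhdsSet p (Metric.ball_subset_closedBall hp)

theorem dd_one {χ : P → ℝ} (h : ∀ p ∈ Q r, χ p = 1) (i : Fin 2) {p : P} (hp : p ∈ Q r) :
    dd γ i χ p = 0 := by
  have e : ∀ e : P, pd e χ p = 0 := fun e => by
    rw [pd_congr_pt e (g := fun _ => 1) (mem_of_superset ((isOpen_Q r).mem_nhds hp) h)]
    exact pd_const e p 1
  fin_cases i
  · simp [dd, e]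
  · simp [dd, e]

theorem van_dl {f : P → ℝ} (hf : Van {p | p.2 ≤ σ} f) (h : ℝ) : Van {p | p.2 ≤ σ} (dl h f) :=
  Van.sub (hf.sh h) hf

theorem mem_sh {r₁ r₂ h : ℝ} (hh : |h| ≤ r₂ - r₁) {p : P} (hp : p ∈ Q r₁) :
    ((p.1 + h, p.2) : P) ∈ Q r₂ := by
  obtain ⟨a, b⟩ := mem_Q.1 hp
  have := abs_add_le p.1 h
  have := abs_nonneg h
  exact mem_Q.2 ⟨by dsimp only; linarith, by dsimp only; linarith⟩

/-- The equation tested with an `H¹` function. -/
theorem test_h1 (hD : DensS) (hγ : Gam γ) {r₁ R : ℝ} (hr : r₁ < r) (hR : 0 ≤ R) {W F ξ : P → ℝ}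
    {d e : Fin 2 → P → ℝ} (hS : So γ σ r W d F) (hd : ∀ i, nm (d i) ≤ R)
    (hF : HB (Qp σ r) 0 F R) (hξ : H1 γ ξ e) (hv : Van (Qp σ r₁)ᶜ ξ) :
    ∑ i, ∫ x, d i x * e i x ≤ R * nm ξ := by
  refine le_of_forall_pos_le_add fun ε hε => ?_
  have h3 : 0 < 3 * R + 1 := by linarith
  obtain ⟨ψ, a, b, c⟩ := (hD γ σ r r₁ hγ hr).1 ξ e hξ hv (ε / (3 * R + 1)) (div_pos hε h3)
  set η := ε / (3 * R + 1) with hη
  have e0 : η * (3 * R + 1) = ε := div_mul_cancel₀ _ h3.ne'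
  have η0 : 0 < η := div_pos hε h3
  have e1 : ∀ i, ∫ x, d i x * e i x ≤ (∫ x, d i x * dd γ i ψ x) + R * η := fun i => by
    have m := (a.dd hγ i).m2
    have h1 := abs_int_le (hS.h1.md i) ((hξ.md i).sub m)
    simp only [mul_sub] at h1
    rw [integral_sub ((hS.h1.md i).int_mul (hξ.md i)) ((hS.h1.md i).int_mul m)] at h1
    have h2 := mul_le_mul (hd i) (c i) (nm_nonneg _) hR
    linarith [le_abs_self ((∫ x, d i x * e i x) - ∫ x, d i x * dd γ i ψ x)]
  have e2 := (le_abs_self _).trans (hF [] le_rfl ψ a)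
  have e3 : nm ψ ≤ nm ξ + η := by
    have := nm_sub_le hξ.m (hξ.m.sub a.m2)
    simp only [sub_sub_cancel] at this
    exact this.trans (by linarith)
  have e4 := hS.eq ψ a
  rw [Fin.sum_univ_two] at e4 ⊢
  rw [DL_nil] at e2
  nlinarith [e1 0, e1 1, mul_le_mul_of_nonneg_left e3 hR]

theorem quad {N K M t : ℝ} (hK : 0 ≤ K) (hM : 0 ≤ M) (ht : 0 ≤ t)
    (h : N ^ 2 ≤ K * t * N + M * t ^ 2) : N ≤ (K + M + 1) * t := by
  by_contra h1
  push Not at h1
  have h2 : 0 ≤ (K + M + 1) * t := by positivity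
  have h3 : t ≤ N := by nlinarith
  have h4 : (K + M + 1) * t * N < N * N := mul_lt_mul_of_pos_right h1 (by linarith)
  nlinarith [mul_le_mul_of_nonneg_left h3 (mul_nonneg hM ht), mul_nonneg ht (ht.trans h3)]

end Reg0

open Reg0 in
theorem rowReg0 : OfReg0 := by
  intro hD hT hQ γ σ r r' R hγ _ _ hr hR
  obtain ⟨χ₁, c1, c2, c3⟩ := cutQ (r := r) (r' := r - (r - r') / 3) (by linarith)
  obtain ⟨χ, x1, -, x3⟩ := cutQ (r := r' + (r - r') / 3) (r' := r') (by linarith)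
  choose B B0 hB using fun i => (c1.dd hγ i).bd
  obtain ⟨C, C0, hC⟩ := hT γ χ hγ x1.top
  obtain ⟨R₁, hR₁⟩ : ∃ R₁, R₁ = R + (B 0 + B 1) * R := ⟨_, rfl⟩
  have R0 : 0 ≤ R₁ := by
    have := B0 0
    have := B0 1
    rw [hR₁]
    positivity
  refine ⟨2 * C * R₁ + 6 * R * C + 6 * R * C * R₁ + 1, by positivity,
    fun W d F hS hW hd hF i => ?_⟩
  have H := hS.h1.cut hγ c1
  obtain ⟨d', hd'⟩ : ∃ d' : Fin 2 → P → ℝ, d' = fun i p => χ₁ p * d i p + dd γ i χ₁ p * W p :=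
    ⟨_, rfl⟩
  rw [← hd'] at H
  have n1 : ∀ i, nm (d' i) ≤ R₁ := fun i => by
    have a := nm_add_le ((hS.h1.md i).tmul c1) (hS.h1.m.tmul (c1.dd hγ i))
    have b := nm_bmul (m := χ₁) (hS.h1.md i) zero_le_one (Eventually.of_forall c2)
    have c := nm_bmul hS.h1.m (B0 i) (Eventually.of_forall (hB i))
    have e : B i ≤ B 0 + B 1 := by
      fin_cases i
      · simpa using B0 1
      · simpa using B0 0
    have f := mul_le_mul e hW (nm_nonneg _) (add_nonneg (B0 0) (B0 1))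
    rw [hd', hR₁]
    linarith [hd i]
  have n2 : ∀ i, ∀ p ∈ Q (r - (r - r') / 3), d' i p = d i p := fun i p hp => by
    rw [hd']
    dsimp only
    rw [c3 p hp, dd_one c3 i hp, one_mul, zero_mul, add_zero]
  have v0 : Van {p | p.2 ≤ σ} fun p => χ₁ p * W p := Eventually.mono hS.van fun p a hp => by
    dsimp only
    by_cases h : p ∈ Q r
    · rw [a ⟨h, fun b => not_lt.2 (show p.2 ≤ σ from hp) b.2⟩, mul_zero]
    · rw [c1.off h, zero_mul]
  refine TY.congr (hQ (Q r') χ (d' i) _ (H.md i) x1.top x3 (by positivity) ?_)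
    (Eventually.of_forall fun p hp => n2 i p (Q_mono (by linarith) hp))
  filter_upwards [mem_nhdsWithin_of_mem_nhds
    (Metric.closedBall_mem_nhds (0 : ℝ) (show 0 < (r - r') / 3 by linarith))] with h hh
  rw [mem_closedBall_zero_iff, Real.norm_eq_abs] at hh
  obtain ⟨ρ, ς, a1, a2, a3, a4⟩ := hC h R₁ _ (fun _ => 0) d' (fun _ _ => 0) H n1
    ⟨M2.zero, fun _ => by simpa using M2.zero, fun _ _ _ => by simp⟩
    fun _ => ⟨M2.zero, by rw [nm_zero]; positivity⟩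
  have v1 : Van (Qp σ (r - (r - r') / 3))ᶜ
      (dl (-h) fun p => χ p ^ 2 * dl h (fun p => χ₁ p * W p) p + 0) := by
    have v2 : Van {p | p.2 ≤ σ} fun p => χ p ^ 2 * dl h (fun p => χ₁ p * W p) p + 0 := by
      simpa only [add_zero] using (van_dl v0 h).smul fun p => χ p ^ 2
    refine Filter.Eventually.mono (van_dl v2 (-h)) fun p a hp => ?_
    by_cases h1 : p.2 ≤ σ
    · exact a h1
    · have h2 : p ∉ Q (r - (r - r') / 3) := fun b => hp ⟨b, not_le.1 h1⟩
      have h3 : χ p = 0 := x1.off fun b => h2 (Q_mono (by linarith) b)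
      have h4 : χ (p.1 + -h, p.2) = 0 := x1.off fun b => h2 (by
        simpa using mem_sh (r₂ := r - (r - r') / 3) (h := h) (by linarith) b)
      simp [dl, h3, h4]
  have k1 := test_h1 hD hγ (by linarith) hR hS hd hF a3 v1
  obtain ⟨a, ha⟩ : ∃ a : Fin 2 → ℝ, ∀ l, a l = nm fun p => χ p * dl h (d' l) p := ⟨_, fun _ => rfl⟩
  simp only [← ha] at a1 a4 ⊢
  have a0 : ∀ l, 0 ≤ a l := fun l => ha l ▸ nm_nonneg _
  have k2 : ∀ l, a l ^ 2 - a l * (C * (R₁ * |h|)) - R * (C * (|h| * (R₁ * |h| + ∑ l, a l))) ≤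
      ∫ x, d l x * (dl (-h) (fun p => χ p ^ 2 * dl h (d' l) p + χ p * ρ l p) x + ς l x) :=
    fun l => by
    obtain ⟨b1, b2, b3, b4⟩ := a1 l
    have m := ((H.md l).dl h).tmul x1
    have e : (fun p => dl h (d l) p * (χ p ^ 2 * dl h (d' l) p + χ p * ρ l p)) =
        fun p => (χ p * dl h (d' l) p) ^ 2 + χ p * dl h (d' l) p * ρ l p := funext fun p => by
      by_cases h1 : p ∈ Q (r' + (r - r') / 3)
      · have : dl h (d l) p = dl h (d' l) p := by
          rw [dl, dl, n2 l p (Q_mono (by linarith) h1), n2 l _ (mem_sh (by linarith) h1)]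
        rw [this]
        ring
      · simp [x1.off h1]
    simp only [mul_add]
    rw [integral_add ((hS.h1.md l).int_mul ((a2.md l).dl _)) ((hS.h1.md l).int_mul b2),
      int_mul_dl (hS.h1.md l) (a2.md l), e, integral_add m.int_sq (m.int_mul b1), ← nm_sq, ← ha]
    have f1 := neg_le_of_abs_le ((abs_int_le m b1).trans
      (mul_le_mul_of_nonneg_left b3 (nm_nonneg _)))
    have f2 := neg_le_of_abs_le ((abs_int_le (hS.h1.md l) b2).trans
      (mul_le_mul (hd l) b4 (nm_nonneg _) hR))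
    rw [← ha] at f1
    simp only [mul_add] at f2
    linarith
  have k3 := (Finset.sum_le_sum fun l _ => k2 l).trans
    (k1.trans (mul_le_mul_of_nonneg_left a4 hR))
  simp only [Fin.sum_univ_two] at k3
  have k4 : a 0 + a 1 ≤ (2 * C * R₁ + 6 * R * C + 6 * R * C * R₁ + 1) * |h| :=
    quad (by positivity) (by positivity) (abs_nonneg h) (by nlinarith [sq_nonneg (a 0 - a 1)])
  fin_cases i
  · exact le_trans (by simpa using a0 1) k4
  · exact le_trans (by simpa using a0 0) k4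

end Pool.Agent.MP_ed9623_an.H77
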