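import Pool.Agent.MP_ed9623_an.H77.SpecW

/-! From the equation of the half difference to a controlled heat system. -/

open MeasureTheory Filter Topology Set
open scoped ContDiff

namespace Pool.Agent.MP_ed9623_an.H77

open H64

namespace Fm

theorem sum2 {f : Fin 2 → P → ℝ} {c : ℝ} (h : ∀ i, M2 (f i) ∧ nm (f i) ≤ c) :
    (M2 fun p => ∑ i, f i p) ∧ (nm fun p => ∑ i, f i p) ≤ 2 * c := by
  simp only [Fin.sum_univ_two]
  exact ⟨(h 0).1.add (h 1).1, (nm_add_le (h 0).1 (h 1).1).trans (by linarith [(h 0).2, (h 1).2])⟩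

theorem good {N O : Set P} {M c : ℝ} {a w : Fin 2 → P → ℝ} {da dw : Fin 2 → Fin 2 → P → ℝ}
    {ψ : P → ℝ} (hM : 0 ≤ M) (hG : Good (fun _ => 0) N a da M) (hw : VF (fun _ => 0) w dw)
    (hO : O ⊆ N) (hψ : Test O ψ) (h1 : ∀ j, (nm fun x => ψ x * w j x) ≤ c)
    (h2 : ∀ j i, (nm fun x => ψ x * dw j i x) ≤ c)
    (h3 : ∀ j i, (nm fun x => pd (ee i) ψ x * w j x) ≤ c) (j i : Fin 2) :
    (M2 fun p => ψ p * w i p * da j i p) ∧ (nm fun p => ψ p * w i p * da j i p) ≤ M * (5 * c) := by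
  obtain ⟨a1, a2⟩ := hG.2 j i _ _ (((hw.h1 i).mono (subset_univ O)).cut Gam.zero hψ)
    (Eventually.of_forall fun p hp => by
      dsimp only
      rw [hψ.off fun h => hp (hO h), zero_mul])
  refine ⟨a1, a2.trans (mul_le_mul_of_nonneg_left ?_ hM)⟩
  have e : ∀ l, (nm fun p => ψ p * dw i l p + dd (fun _ => 0) l ψ p * w i p) ≤ 2 * c := fun l => by
    rw [dd_zero]
    exact (nm_add_le (((hw.h1 i).md l).tmul hψ) ((hw.h1 i).m.tmul (hψ.pd _))).trans
      (by linarith [h2 i l, h3 i l])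
  linarith [e 0, e 1, h1 i]

theorem single {N : Set P} {φ : P → ℝ} (hφ : Test N φ) (j l : Fin 2) :
    Test N ((Pi.single j φ : Fin 2 → P → ℝ) l) := by
  by_cases h : l = j
  · rw [h, Pi.single_eq_same]
    exact hφ
  · rw [Pi.single_eq_of_ne h]
    exact Test.zero N

theorem ip_single (z : Fin 2 → P → ℝ) (j : Fin 2) (φ : P → ℝ) :
    ip z (Pi.single j φ) = ∫ x, z j x * φ x := by
  rw [ip, Finset.sum_eq_single j (fun l _ h => by simp [h]) (by simp), Pi.single_eq_same]

theorem di_single (d : Fin 2 → Fin 2 → P → ℝ) (j : Fin 2) (φ : P → ℝ) :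
    di (fun _ => 0) d (Pi.single j φ) = ∑ i, ∫ x, d j i x * pd (ee i) φ x := by
  rw [di, Finset.sum_eq_single j (fun l _ h => ?_) (by simp), Pi.single_eq_same]
  · simp only [dd_zero]
  · have e : ∀ (e x : P), pd e (0 : P → ℝ) x = 0 := fun e x => pd_const e x 0
    simp [Pi.single_eq_of_ne h, dd_zero, e]

end Fm

open Fm in
theorem rowFm : OfFm := by
  intro hP N N' K M R hN hN' hK h1 h2 hM
  obtain ⟨χ, c1, c2, c3⟩ := exists_cut hK hN h2
  choose B B0 hB using fun i => (c1.pd (ee i)).bd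
  obtain ⟨c, hc⟩ : ∃ c, c = (1 + B 0 + B 1) * |R| := ⟨_, rfl⟩
  have c0 : 0 ≤ c := by
    have := B0 0
    have := B0 1
    rw [hc]
    positivity
  refine ⟨12 * M * c + 288 * M ^ 2, by positivity, fun a w z da dw ha hw hz hR hG hE => ?_⟩
  have b0 : ∀ {m f : P → ℝ} {C : ℝ}, M2 f → nm f ≤ R → 0 ≤ C → C ≤ 1 + B 0 + B 1 →
      (∀ x, |m x| ≤ C) → (nm fun x => m x * f x) ≤ c := fun hf h h0 h1 hm =>
    (nm_bmul hf h0 (Eventually.of_forall hm)).trans
      (hc ▸ mul_le_mul h1 (h.trans (le_abs_self R)) (nm_nonneg _) (h0.trans h1))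
  have b1 : ∀ x, |χ x| ≤ 1 := fun x => abs_le.2 ⟨by linarith [(c2 x).1], (c2 x).2⟩
  have b2 : (1 : ℝ) ≤ 1 + B 0 + B 1 := by linarith [B0 0, B0 1]
  have g1 := good hM hG hw subset_rfl c1
    (fun j => b0 (hw.h1 j).m (hR j).1 zero_le_one b2 b1)
    (fun j i => b0 ((hw.h1 j).md i) ((hR j).2 i) zero_le_one b2 b1)
    fun j i => b0 (hw.h1 j).m (hR j).1 (B0 i) (by
      fin_cases i
      · simpa using by linarith [B0 1]
      · simpa using by linarith [B0 0]) (hB i)
  have a1 : ∀ i, ∀ᵐ p, |N'.indicator (a i) p| ≤ M := fun i => (hG.1 i).mono fun p hp => by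
    by_cases h : p ∈ N'
    · rw [indicator_of_mem h]
      exact hp (h2 (h1 h))
    · rw [indicator_of_notMem h, abs_zero]
      exact hM
  have a2 : ∀ {f : P → ℝ} {C : ℝ} (i : Fin 2), M2 f → nm f ≤ C →
      (M2 fun p => N'.indicator (a i) p * f p) ∧
        (nm fun p => N'.indicator (a i) p * f p) ≤ M * C := fun i hf h =>
    ⟨hf.bmul ((ha.h1 i).m.ind hN'.measurableSet).meas (a1 i),
      (nm_bmul hf hM (a1 i)).trans (mul_le_mul_of_nonneg_left h hM)⟩
  have x1 : ∀ p ∈ N', χ p = 1 := fun p hp => c3.self_of_nhdsSet p (h1 hp)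
  have G := fun j => sum2 (f := fun i p => N'.indicator (a i) p * dw j i p) fun i =>
    a2 i ((hw.h1 j).md i) (by
      simpa using b0 (m := fun _ => 1) ((hw.h1 j).md i) ((hR j).2 i) zero_le_one b2 (by simp))
  have H := fun j => sum2 (f := fun i => N'.indicator fun p => χ p * w i p * da j i p) fun i =>
    ⟨(g1 j i).1.ind hN'.measurableSet, (nm_ind_le (g1 j i).1 N').trans (g1 j i).2⟩
  refine ⟨fun j p => -(∑ i, N'.indicator (a i) p * dw j i p) -
    ∑ i, N'.indicator (fun p => χ p * w i p * da j i p) p, fun j => ⟨(G j).1.neg.sub (H j).1, ?_⟩,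
    fun j φ hφ => ?_, fun ψ hψ => ?_⟩
  · have := nm_sub_le (G j).1.neg (H j).1
    rw [nm_neg] at this
    nlinarith [(G j).2, (H j).2, sq_nonneg M]
  · have t := single hφ j
    have e := hE _ t
    rw [E1, hP.2 _ a w _ da dw Gam.zero ha hw.h1 fun l => (t l).top,
      hP.2 _ w a _ dw da Gam.zero hw ha.h1 fun l => (t l).top] at e
    simp only [ip_single, di_single] at e
    rw [int_test_congr (f := fun p => ∑ i, a i p * dw j i p)
        (g := fun p => ∑ i, N'.indicator (a i) p * dw j i p) (fun _ => hφ.off)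
        (Eventually.of_forall fun p hp => by simp only [indicator_of_mem hp]),
      int_test_congr (f := fun p => ∑ i, w i p * da j i p)
        (g := fun p => ∑ i, N'.indicator (fun p => χ p * w i p * da j i p) p) (fun _ => hφ.off)
        (Eventually.of_forall fun p hp => by simp only [indicator_of_mem hp, x1 p hp, one_mul])]
      at e
    simp only [sub_mul]
    rw [integral_sub ((G j).1.neg.int_mul hφ.m2) ((H j).1.int_mul hφ.m2)]
    simp only [neg_mul, integral_neg]
    linarith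
  · obtain ⟨S, hS⟩ : ∃ S, S = ∑ j, (nm (fun x => ψ x * w j x) ^ 2 +
      ∑ i, (nm (fun x => ψ x * dw j i x) ^ 2 + nm (fun x => pd (ee i) ψ x * w j x) ^ 2)) :=
      ⟨_, rfl⟩
    rw [← hS]
    have S0 : 0 ≤ S := hS ▸ by positivity
    have s1 : ∀ j, nm (fun x => ψ x * w j x) ^ 2 + ∑ i, (nm (fun x => ψ x * dw j i x) ^ 2 +
        nm (fun x => pd (ee i) ψ x * w j x) ^ 2) ≤ S := fun j =>
      hS ▸ Finset.single_le_sum (f := fun j => nm (fun x => ψ x * w j x) ^ 2 +
        ∑ i, (nm (fun x => ψ x * dw j i x) ^ 2 + nm (fun x => pd (ee i) ψ x * w j x) ^ 2))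
        (fun _ _ => by positivity) (Finset.mem_univ j)
    have s2 : ∀ j i, nm (fun x => ψ x * dw j i x) ^ 2 +
        nm (fun x => pd (ee i) ψ x * w j x) ^ 2 ≤ S := fun j i =>
      (Finset.single_le_sum (f := fun i => nm (fun x => ψ x * dw j i x) ^ 2 +
        nm (fun x => pd (ee i) ψ x * w j x) ^ 2) (fun _ _ => by positivity)
        (Finset.mem_univ i)).trans ((le_add_of_nonneg_left (sq_nonneg _)).trans (s1 j))
    have t2 : ∀ j i, (nm fun x => ψ x * dw j i x) ≤ √S := fun j i =>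
      Real.le_sqrt_of_sq_le ((le_add_of_nonneg_right (sq_nonneg _)).trans (s2 j i))
    have g2 := good hM hG hw (h1.trans h2) hψ
      (fun j => Real.le_sqrt_of_sq_le ((le_add_of_nonneg_right (by positivity)).trans (s1 j))) t2
      fun j i => Real.le_sqrt_of_sq_le ((le_add_of_nonneg_left (sq_nonneg _)).trans (s2 j i))
    have k : ∀ j, (nm fun x => ψ x * (-(∑ i, N'.indicator (a i) x * dw j i x) -
        ∑ i, N'.indicator (fun p => χ p * w i p * da j i p) x)) ^ 2 ≤ 144 * M ^ 2 * S := fun j => by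
      have G' := sum2 (f := fun i p => N'.indicator (a i) p * (ψ p * dw j i p)) fun i =>
        a2 i (((hw.h1 j).md i).tmul hψ) (t2 j i)
      have H' := sum2 (g2 j)
      have e : (fun x => ψ x * (-(∑ i, N'.indicator (a i) x * dw j i x) -
          ∑ i, N'.indicator (fun p => χ p * w i p * da j i p) x)) =
          fun x => -(∑ i, N'.indicator (a i) x * (ψ x * dw j i x)) -
            ∑ i, ψ x * w i x * da j i x := funext fun x => by
        by_cases h : x ∈ N'
        · simp only [Fin.sum_univ_two, indicator_of_mem h, x1 x h]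
          ring
        · simp [hψ.off h]
      have := nm_sub_le G'.1.neg H'.1
      rw [nm_neg] at this
      rw [e]
      refine (pow_le_pow_left₀ (nm_nonneg _) (b := 12 * M * √S)
        (by linarith [G'.2, H'.2]) 2).trans_eq ?_
      rw [mul_pow, Real.sq_sqrt S0]
      ring
    rw [Fin.sum_univ_two]
    nlinarith [k 0, k 1, mul_nonneg (mul_nonneg hM c0) S0]

end Pool.Agent.MP_ed9623_an.H77
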